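import Pool.Agent.Helper47.FN.Step
import Pool.Agent.Helper49.MD.Cnt
import Pool.Agent.Helper84.MT.Add

/-! COUNTABLY MANY TYPES, FINITELY MANY SUFFICE (hulls). Systems `s` with countably many types and a partition `R` finer
than the point (labels may depend on all digits of `R`). In a class of such pairs which is closed under restrictions to
events, truncations (the partition `R` is kept) and diagonals and whose members have trivial hulls of degree `D`, the
hulls of degree `D` of the first `m` types are trivial, for all large `m` and all members. -/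

set_option autoImplicit false

namespace Pool.Agent.Helper47.FN

open Finset Filter Topology Matrix Pool.Agent.Helper69.RK Pool.Agent.Helper31.EC Pool.Agent.Helper31.EC.Sp
open Pool.Agent.Helper40.EL Pool.Agent.Helper89.LX Pool.Agent.Helper3.LF Pool.Agent.Helper84.MT
open Pool.Agent.Helper49.MD
open Pool.Agent.Helper14.MC (gx vx vol_eq vx_UB vol_opt_le)

noncomputable section

variable {S T : Sp} {M D : ℕ} {E : ℕ → ℕ} {ι κ : Type}

/-- the first `m` types -/
def fst (s : MSys S M E ℕ) (m : ℕ) : MSys S M E (Fin m) := s.ren fun i => (i : ℕ)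

theorem fst_im (s : MSys S M E ℕ) (m : ℕ) (p : Pj T S) (A : ∀ k, (T.F k).Ω → Prop) (hA : 0 < ul (T.pr A)) :
    (fst s m).im p A hA = fst (s.im p A hA) m := rfl

theorem fst_trn (s : MSys S M E ℕ) (m : ℕ) (e : ℝ) (he : 0 < e) (h1 : e ≤ 1) :
    (fst s m).trn e he h1 = fst (s.trn e he h1) m := rfl

theorem fst_DMc {s : MSys S M E ℕ} {c : ℝ} {l : Lab S} (h : s.DMc c l) (m : ℕ) : (fst s m).DMc c l := h.ren _

/-- the conditions `R` and the windows `c`, as partitions -/
def cnR (s : MSys S M E ι) (R : ∀ k, Setoid (S.F k).Ω) (c : ℝ) : Option ι → ∀ k, Setoid (S.F k).Ω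
  | none => R
  | some i => fun k => (s.lf i).La k ⊓ Setoid.ker ((s.lf i).Y.cellv c k)

theorem cnR_pcd (s : MSys S M E ι) (c : ℝ) :
    pfm (cnR s (fun k => Setoid.ker (s.Q.cellv 1 k)) c) = s.cnd c := by
  funext i
  cases i <;> rfl

/-- the hull of degree `D` of the window `c` is trivial, for labels which may depend on `R`: all forms which are carried
by labels without leak cut nothing (any number of types) -/
def HTr (s : MSys S M E ι) (R : ∀ k, Setoid (S.F k).Ω) (D : ℕ) (c : ℝ) : Prop :=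
  ∀ x : ∀ k, FD (S.F k) (Mon M D), (lbS x).DMf (pfm (cnR s R c)) → (gaq s.Q D).Fm x → (M : ℝ) ≤ vol s.Q D x

/-- labels visible at the point: the hull is trivial iff its volume is full -/
theorem HTr_iff [Finite ι] (s : MSys S M E ι) (D : ℕ) (c : ℝ) :
    HTr s (fun k => Setoid.ker (s.Q.cellv 1 k)) D c ↔ s.vol D c = M := by
  unfold HTr
  rw [cnR_pcd]
  constructor
  · intro h
    obtain ⟨x, hx⟩ := s.exists_can D c
    refine le_antisymm (s.vol_le_M D c) ?_
    rw [← s.vol_eq hx.1]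
    exact h x hx.2.1 hx.1.1.fm
  · intro h x h1 h2
    rw [← h]
    exact s.vol_le_of (Gau.Adf_iff.2 ⟨h1, h2⟩)

/-- the kind of systems with a partition -/
def KR (M : ℕ) (ι : Type) : FK where
  X := fun F => FMs F.Ω M ι × Setoid F.Ω
  im := fun _ _ x => x

/-- a class of pairs as a class of objects -/
def lftR (C : ∀ S : Sp, MSys S M E ι → (∀ k, Setoid (S.F k).Ω) → Prop) : (KR M ι).Pd := fun S x =>
  ∃ (s : MSys S M E ι) (R : ∀ k, Setoid (S.F k).Ω), Giv s (fun k => (x k : FMs (S.F k).Ω M ι × Setoid (S.F k).Ω).1) ∧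
    (∀ᶠ k in UF, R k = (x k : FMs (S.F k).Ω M ι × Setoid (S.F k).Ω).2) ∧ C S s R

/-- the object of a pair -/
def obR (s : MSys S M E ι) (R : ∀ k, Setoid (S.F k).Ω) : (KR M ι).Ob S := fun k =>
  ((ob s k : FMs (S.F k).Ω M ι), R k)

theorem lftR_ob {C : ∀ S : Sp, MSys S M E ι → (∀ k, Setoid (S.F k).Ω) → Prop} {s : MSys S M E ι}
    {R : ∀ k, Setoid (S.F k).Ω} (h : C S s R) : lftR C S (obR s R) :=
  ⟨s, R, Giv_ob s, Eventually.of_forall fun _ => rfl, h⟩

theorem nul_of {f : ℕ → ℝ} (h0 : ∀ k, 0 ≤ f k) (h : ∀ δ : ℝ, 0 < δ → ∀ᶠ k in UF, f k ≤ δ * (S.F k).n) : Nul S f := by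
  show Tendsto (fun k => f k / (S.F k).n) UF (𝓝 0)
  rw [Metric.tendsto_nhds]
  intro ε hε
  filter_upwards [h (ε / 2) (by linarith)] with k hk
  have hn := (S.F k).pos
  rw [Real.dist_eq, sub_zero, abs_of_nonneg (div_nonneg (h0 k) hn.le), div_lt_iff₀ hn]
  nlinarith

/-- the conditions of the window `0` of finite data -/
def cnF (F : FSp) (x : FMs F.Ω M ι × Setoid F.Ω) : Option ι → Setoid F.Ω
  | none => x.2
  | some i => (x.1.lf i).La ⊓ Setoid.ker fun ω => cell (dlF F 0) ((x.1.lf i).Y ω)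

/-- a form with small leaks at the used types and a definite cut, up to `δ` -/
def FmP (D : ℕ) (F : FSp) (x : FMs F.Ω M ℕ × Setoid F.Ω) (y : FD F (Mon M D)) (δ : ℝ) : Prop :=
  (∀ i : Option ℕ, Used δ i → y.l.leak (fc (cnF F x i)) ≤ δ * F.n) ∧
  (∀ ω, y.l.T.μ ω ≠ 0 → Cpd (2 ^ ((2 * (D : ℝ) + 1 + 1) * F.n)) (y.g ω) ∧
    Cpd (2 ^ ((2 * (D : ℝ) + 1 + 1) * F.n)) (y.g' ω)) ∧
  y.l.T.pb (fun ω => ¬ phi (dlF F 1) (y.g ω) (x.1.Q (y.l.p.π ω)) ≤ 2 ^ (δ * F.n)) ≤ δ ∧
  y.l.T.pb (fun ω => ¬ phi (dlF F 1) (y.g' ω) (x.1.Q (y.l.p.π ω)) ≤ 2 ^ (δ * F.n)) ≤ δ ∧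
  1 / 4 ≤ ∑ ω, y.l.T.μ ω * (Real.logb 2 (GQ (dlF F 1) (y.g ω) (x.1.Q (y.l.p.π ω))) / (2 * F.n))

theorem FmP.mono {F : FSp} {x : FMs F.Ω M ℕ × Setoid F.Ω} {y : FD F (Mon M D)} {δ δ' : ℝ} (h : δ ≤ δ')
    (hy : FmP D F x y δ) : FmP D F x y δ' := by
  have hn := F.pos
  have h1 : δ * F.n ≤ δ' * F.n := mul_le_mul_of_nonneg_right h hn.le
  have h2 : (2 : ℝ) ^ (δ * F.n) ≤ 2 ^ (δ' * F.n) := Real.rpow_le_rpow_of_exponent_le (by norm_num) h1
  refine ⟨fun i hi => (hy.1 i (hi.mono h)).trans h1, hy.2.1, ?_, ?_, hy.2.2.2.2⟩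
  · refine le_trans (FSp.pb_mono _ ?_) (hy.2.2.1.trans h)
    intro ω _ h3 h4
    exact h3 (h4.trans h2)
  · refine le_trans (FSp.pb_mono _ ?_) (hy.2.2.2.1.trans h)
    intro ω _ h3 h4
    exact h3 (h4.trans h2)

theorem cnF_ob (s : MSys S M E ι) (R : ∀ k, Setoid (S.F k).Ω) (i : Option ι) (k : ℕ) :
    cnF (S.F k) (obR s R k) i = cnR s R 0 i k := by
  cases i <;> rfl

theorem cnF_giv {s : MSys S M E ι} {R : ∀ k, Setoid (S.F k).Ω} {x : (KR M ι).Ob S}
    (h : Giv s (fun k => (x k : FMs (S.F k).Ω M ι × Setoid (S.F k).Ω).1))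
    (hR : ∀ᶠ k in UF, R k = (x k : FMs (S.F k).Ω M ι × Setoid (S.F k).Ω).2) (i : Option ι) :
    ∀ᶠ k in UF, cnR s R 0 i k = cnF (S.F k) (x k) i := by
  cases i with
  | none => exact hR
  | some i =>
    filter_upwards [h.2 i] with k hk
    show (lob (s.lf i) k).La ⊓ Setoid.ker (fun ω => cell (dlF (S.F k) 0) ((lob (s.lf i) k).Y ω)) = _
    rw [hk]
    rfl

/-- conditions on the forms give boundedness of the average cut -/
theorem vx_UB' {Q : S.VV M} {x : ∀ k, FD (S.F k) (Mon M D)} (hx : (gaq Q D).Fm x) : UB (vx Q x) :=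
  vx_UB (A := fun i : PEmpty => i.elim) (Gau.Adf_iff.2 ⟨fun i => i.elim, hx⟩)

/-- the conditions of the truncation -/
theorem cnR_trn (s : MSys S M E ι) (R : ∀ k, Setoid (S.F k).Ω) (e : ℝ) (he : 0 < e) (h1 : e ≤ 1) (i : Option ι)
    (k : ℕ) : cnR (s.trn e he h1) R 0 i k = cnR s R 0 i k := by
  cases i with
  | none => rfl
  | some i =>
    have e1 : ((s.lf i).Y.chg S.tr e he).cellv 0 k = (s.lf i).Y.cellv 0 k :=
      (Pool.Agent.Helper52.SL.cellv_chg (s.lf i).Y e he 0 k).trans (by rw [mul_zero])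
    exact congrArg (fun f => (s.lf i).La k ⊓ Setoid.ker f) e1

/-- FINITELY MANY TYPES SUFFICE (hulls of degree `D`) -/
theorem fin_hull (hM : 1 ≤ M) (D : ℕ) {TT : ∀ S : Sp, MSys S M E ℕ → (∀ k, Setoid (S.F k).Ω) → Prop}
    (him : ∀ S s R, TT S s R → ∀ (T : Sp) (p : Pj T S) (A : ∀ k, (T.F k).Ω → Prop) (hA : 0 < ul (T.pr A)),
      TT (Sp.im p A) (s.im p A hA) R)
    (htr : ∀ S s R, TT S s R → ∀ (e : ℝ) (he : 0 < e) (h1 : e ≤ 1), TT (S.chg S.tr e he) (s.trn e he h1) R)
    (hdg : DiagCl (lftR TT)) (hh : ∀ S s R, TT S s R → HTr s R D 0) :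
    ∃ m₀ : ℕ, ∀ m, m₀ ≤ m → ∀ S s R, TT S s R → HTr (fst s m) R D 0 := by
  classical
  obtain ⟨δ, hδ, hu⟩ := unif_ex hdg (X := fun F _ => FD F (Mon M D)) (fun F x y δ => FmP D F x y δ)
    (fun F x y δ δ' h hy => FmP.mono h hy) (by
      rintro S x ⟨s, R, hs, hR, hTT⟩ ⟨y, hy⟩
      set Y : ∀ k, FD (S.F k) (Mon M D) := fun k => (y k).getD (trivFD (S.F k)) with hY
      have hz : ∀ δ : ℝ, 0 < δ → ∀ᶠ k in UF, FmP D (S.F k) (x k) (Y k) δ := by
        intro δ hδ
        filter_upwards [hy δ hδ] with k hk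
        obtain ⟨z, h1, h2⟩ := hk
        have e1 : Y k = z := by
          rw [hY]
          simp only
          rw [h1]
          rfl
        rw [e1]
        exact h2
      have hd : (lbS Y).DMf (pfm (cnR s R 0)) := by
        intro i
        refine nul_of (fun k => FLab.leak_nonneg _ _) fun δ hδ => ?_
        set δ' : ℝ := min δ (1 / ((Encodable.encode i : ℝ) + 1)) with hδ'
        have h0 : 0 < δ' := lt_min hδ (by positivity)
        filter_upwards [hz δ' h0, cnF_giv hs hR i] with k a b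
        have h1 : Used δ' i := by
          have h2 : (Encodable.encode i : ℝ) * δ' ≤ Encodable.encode i * (1 / ((Encodable.encode i : ℝ) + 1)) :=
            mul_le_mul_of_nonneg_left (min_le_right _ _) (Nat.cast_nonneg _)
          refine h2.trans ?_
          rw [mul_one_div, div_le_one (by positivity)]
          linarith
        have h3 := a.1 i h1
        show (Y k).l.leak (fc (cnR s R 0 i k)) ≤ _
        rw [b]
        exact h3.trans (mul_le_mul_of_nonneg_right (min_le_left _ _) (S.F k).pos.le)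
      have hf : (gaq s.Q D).Fm Y := by
        intro η hη
        filter_upwards [hz η hη, hs.1] with k a b
        refine ⟨a.2.1, ?_, ?_⟩
        · have h3 := a.2.2.1
          rw [← b] at h3
          exact h3
        · have h3 := a.2.2.2.1
          rw [← b] at h3
          exact h3
      have hv : 1 / 4 ≤ ul (vx s.Q Y) := by
        refine const_le_ul (vx_UB' hf) ?_
        filter_upwards [hz 1 one_pos, hs.1] with k a b
        have h3 := a.2.2.2.2
        rw [← b] at h3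
        exact h3
      have h4 := hh S s R hTT Y hd hf
      rw [vol_eq] at h4
      linarith)
  refine ⟨⌈1 / δ⌉₊ + 1, fun m hm S s R hs x hx1 hx2 => ?_⟩
  by_contra hlt
  rw [not_le] at hlt
  obtain ⟨z, hz⟩ := (gaq s.Q D).exists_optf (pfm (cnR (fst s m) R 0))
  have hlt' : vol s.Q D z < M := (vol_opt_le hz (Gau.Adf_iff.2 ⟨hx1, hx2⟩)).trans_lt hlt
  obtain ⟨T, p, A, hA, e, he, h1, y, h2, h3, h4⟩ := step s.Q (cnR (fst s m) R 0) hM hz hlt'
  have hTT : TT _ ((s.im p A hA).trn e he h1) R := htr _ _ _ (him S s R hs T p A hA) e he h1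
  have h5 : ∀ᶠ k in UF, FmP D _ (obR ((s.im p A hA).trn e he h1)
      (show ∀ k, Setoid (((Sp.im p A).chg (Sp.im p A).tr e he).F k).Ω from R) k) (y k) δ := by
    have hlk : ∀ᶠ k in UF, ∀ i : Option ℕ, Used δ i → Used δ i →
        (y k).l.leak (fc (F := ((Sp.im p A).chg (Sp.im p A).tr e he).F k) (cnR s R 0 i k)) ≤
          δ * (((Sp.im p A).chg (Sp.im p A).tr e he).F k).n := by
      refine ev_used hδ fun i => ?_
      have hi : Used δ i → ∃ j : Option (Fin m), cnR s R 0 i = cnR (fst s m) R 0 j := by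
        intro hi
        rcases i with _ | i
        · exact ⟨none, rfl⟩
        · have h6 : ((i : ℝ) + 1) * δ ≤ 1 := by
            have := hi
            unfold Used at this
            rw [Encodable.encode_some] at this
            push_cast at this
            exact this
          have h7 : (i : ℝ) + 1 ≤ 1 / δ := by
            rw [le_div_iff₀ hδ]
            exact h6
          have h8 : (i : ℝ) + 1 ≤ ⌈1 / δ⌉₊ := h7.trans (Nat.le_ceil _)
          have h9 : i + 1 ≤ ⌈1 / δ⌉₊ := by exact_mod_cast h8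
          exact ⟨some ⟨i, by omega⟩, rfl⟩
      by_cases hU : Used δ i
      · obtain ⟨j, hj⟩ := hi hU
        rw [hj]
        have h6 := (show Tendsto _ _ _ from h2 j).eventually (gt_mem_nhds hδ)
        filter_upwards [h6] with k hk _
        have hn := (((Sp.im p A).chg (Sp.im p A).tr e he).F k).pos
        rw [div_lt_iff₀ hn] at hk
        exact hk.le
      · exact Eventually.of_forall fun k h => absurd h hU
    filter_upwards [hlk, h3 δ hδ, h4] with k a b c
    refine ⟨fun i hi => ?_, b.1, b.2.1, b.2.2, c⟩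
    have h6 := a i hi hi
    rw [cnF_ob, cnR_trn]
    exact h6
  obtain ⟨k, a, b⟩ := (h5.and (hu _ _ (lftR_ob hTT))).exists
  exact b _ a

end

end Pool.Agent.Helper47.FN
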