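import Pool.Agent.Helper84.MT.Evt

/-! Layers of a function with positive mean; the trace of the gradient form and the volume; boundedness of an optimal form
on larger cells. -/

set_option autoImplicit false

namespace Pool.Agent.Helper47.FN

open Finset Filter Topology Matrix Pool.Agent.Helper69.RK Pool.Agent.Helper31.EC Pool.Agent.Helper31.EC.Sp
open Pool.Agent.Helper40.EL Pool.Agent.Helper89.LX Pool.Agent.Helper3.LF Pool.Agent.Helper84.MT
open Pool.Agent.Helper95.LF (PdM)

noncomputable section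

variable {S : Sp}

theorem e1_sum (F : FSp) (E : F.Ω → Prop) (c : ℝ) [DecidablePred E] :
    ∑ ω, F.μ ω * (if E ω then c else 0) = F.pb E * c := by
  unfold FSp.pb mass
  rw [Finset.sum_mul]
  refine Finset.sum_congr rfl fun ω _ => ?_
  by_cases h : E ω
  · rw [if_pos h, res_pos _ _ _ h]
  · rw [if_neg h, res_neg _ _ _ h, mul_zero, zero_mul]

/-- a bounded function with positive mean has a layer `[σ, σ + ε)`, `ε ≤ σ`, of positive probability -/
theorem exists_layer (L : ∀ k, (S.F k).Ω → ℝ) (C a : ℝ) (hC : 0 ≤ C) (ha : 0 < a)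
    (h0 : ∀ᶠ k in UF, ∀ ω, (S.F k).μ ω ≠ 0 → L k ω ≤ C)
    (h1 : ∀ᶠ k in UF, a ≤ ∑ ω, (S.F k).μ ω * L k ω) :
    ∃ σ ε : ℝ, 0 < ε ∧ ε ≤ σ ∧ 0 < ul (S.pr fun k ω => σ ≤ L k ω ∧ L k ω < σ + ε) := by
  classical
  set ε : ℝ := a / 2 with hε
  have ε0 : 0 < ε := by positivity
  set N : ℕ := ⌊C / ε⌋₊ with hN
  set τ : ℝ := a / (4 * ((N : ℝ) + 1) * (C + 1)) with hτ
  have τ0 : 0 < τ := by positivity
  set B : ℕ → ∀ k, (S.F k).Ω → Prop := fun i k ω => ((i : ℝ) + 1) * ε ≤ L k ω ∧ L k ω < ((i : ℝ) + 1) * ε + ε with hB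
  have h2 : ∀ᶠ k in UF, ∃ i ∈ Finset.range N, τ ≤ (S.F k).pb (B i k) := by
    filter_upwards [h0, h1] with k a0 a1
    by_contra hn
    push Not at hn
    have h3 : ∀ ω, (S.F k).μ ω ≠ 0 → L k ω ≤ ε + ∑ i ∈ Finset.range N, (if B i k ω then C else 0) := by
      intro ω hω
      have hs : ∀ i ∈ Finset.range N, 0 ≤ (if B i k ω then C else 0) := fun i _ => by
        split_ifs
        · exact hC
        · exact le_rfl
      rcases lt_or_ge (L k ω) ε with h4 | h4
      · have := Finset.sum_nonneg hs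
        linarith
      · set j : ℕ := ⌊L k ω / ε⌋₊ with hj
        have hL0 : 0 ≤ L k ω / ε := div_nonneg (ε0.le.trans h4) ε0.le
        have j1 : 1 ≤ j := by
          rw [hj]
          apply Nat.le_floor
          rw [le_div_iff₀ ε0]
          simpa using h4
        have j2 : (j : ℝ) * ε ≤ L k ω := by
          have := Nat.floor_le hL0
          rwa [le_div_iff₀ ε0] at this
        have j3 : L k ω < ((j : ℝ) + 1) * ε := by
          have := Nat.lt_floor_add_one (L k ω / ε)
          rwa [div_lt_iff₀ ε0] at this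
        have j4 : j ≤ N := Nat.floor_le_floor (by
          rw [div_le_div_iff_of_pos_right ε0]
          exact a0 ω hω)
        have j5 : j - 1 ∈ Finset.range N := Finset.mem_range.mpr (by omega)
        have j6 : ((j - 1 : ℕ) : ℝ) + 1 = j := by
          have : ((j - 1 : ℕ) : ℝ) = (j : ℝ) - 1 := by
            rw [Nat.cast_sub j1, Nat.cast_one]
          rw [this]
          ring
        have j7 : B (j - 1) k ω := by
          rw [hB]
          simp only
          rw [j6]
          exact ⟨j2, by linarith⟩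
        have h5 := Finset.single_le_sum hs j5
        rw [if_pos j7] at h5
        have := a0 ω hω
        linarith
    have h4 : ∑ ω, (S.F k).μ ω * L k ω ≤ ∑ ω, (S.F k).μ ω * (ε + ∑ i ∈ Finset.range N, (if B i k ω then C else 0)) := by
      refine Finset.sum_le_sum fun ω _ => ?_
      by_cases hω : (S.F k).μ ω = 0
      · rw [hω, zero_mul, zero_mul]
      · exact mul_le_mul_of_nonneg_left (h3 ω hω) ((S.F k).nn ω)
    have h5 : ∑ ω, (S.F k).μ ω * (ε + ∑ i ∈ Finset.range N, (if B i k ω then C else 0)) =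
        ε + ∑ i ∈ Finset.range N, (S.F k).pb (B i k) * C := by
      simp_rw [mul_add, Finset.mul_sum]
      rw [Finset.sum_add_distrib, Finset.sum_comm, ← Finset.sum_mul]
      congr 1
      · have : ∑ ω, (S.F k).μ ω = 1 := (S.F k).ms
        rw [this, one_mul]
      · exact Finset.sum_congr rfl fun i _ => e1_sum (S.F k) (B i k) C
    have h6 : ∑ i ∈ Finset.range N, (S.F k).pb (B i k) * C ≤ N * (τ * C) := by
      have : ∑ i ∈ Finset.range N, (S.F k).pb (B i k) * C ≤ ∑ _i ∈ Finset.range N, τ * C :=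
        Finset.sum_le_sum fun i hi => mul_le_mul_of_nonneg_right (hn i hi).le hC
      refine this.trans (le_of_eq ?_)
      rw [Finset.sum_const, Finset.card_range, nsmul_eq_mul]
    have h7 : N * (τ * C) ≤ a / 4 := by
      have e1 : τ * (4 * ((N : ℝ) + 1) * (C + 1)) = a := by
        rw [hτ]
        field_simp
      have hN0 : (0 : ℝ) ≤ N := Nat.cast_nonneg N
      have : (N : ℝ) * C ≤ ((N : ℝ) + 1) * (C + 1) := by nlinarith
      nlinarith [mul_le_mul_of_nonneg_left this τ0.le]
    rw [h5] at h4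
    have : ε = a / 2 := rfl
    linarith
  obtain ⟨i, _, hi⟩ : ∃ i ∈ Finset.range N, ∀ᶠ k in UF, τ ≤ (S.F k).pb (B i k) := by
    by_contra hn
    have h3 : ∀ᶠ k in UF, ∀ i ∈ Finset.range N, ¬ τ ≤ (S.F k).pb (B i k) := by
      rw [Filter.eventually_all_finset]
      intro i hi
      exact UF_not (fun h => hn ⟨i, hi, h⟩)
    obtain ⟨k, ⟨i, hi, h4⟩, h5⟩ := (h2.and h3).exists
    exact h5 i hi h4
  refine ⟨((i : ℝ) + 1) * ε, ε, ε0, ?_, ?_⟩
  · have : (0 : ℝ) ≤ (i : ℝ) * ε := mul_nonneg (Nat.cast_nonneg i) ε0.le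
    nlinarith
  · exact lt_of_lt_of_le τ0 (const_le_ul (UB_pr _) hi)

/-- the trace of the gradient form is bounded by the volume -/
theorem gam_le_GQ {M D : ℕ} (r : ℝ) {A : Matrix (Mon M D) (Mon M D) ℝ} (hs : A.IsSymm)
    (hA : ∀ x, 0 ≤ x ⬝ᵥ (A *ᵥ x)) (p : Fin M → ℝ) (hM : 1 ≤ M) : 1 + gam r A p ≤ M * GQ r A p := by
  have h1 : ∀ i : Fin M, 1 + Jq r A p i i ≤ GQ r A p := by
    intro i
    have e1 : (Pi.single i 1 : Fin M → ℝ) ⬝ᵥ (Jq r A p *ᵥ Pi.single i 1) = Jq r A p i i := by
      rw [single_dotProduct, one_mul, mulVec_single_one]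
      rfl
    have hx : (Pi.single i 1 : Fin M → ℝ) ≠ 0 := fun h => by
      have := congrFun h i
      rw [Pi.single_eq_same] at this
      exact one_ne_zero this
    have h2 := det_gain' (A := (1 : Matrix (Fin M) (Fin M) ℝ)) (B := Jq r A p)
      ⟨one_symm, fun x hx => by rw [one_dv]; exact dot_self_pos hx⟩
      ⟨Jq_symm r hs p, fun x => Jq_nonneg r hA p x⟩ (Jq r A p i i) (Pi.single i 1) hx (by
        unfold qf
        rw [e1, one_dv, single_dotProduct, Pi.single_eq_same, one_mul, mul_one])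
    rw [det_one, mul_one] at h2
    exact h2
  have h2 : gam r A p = ∑ i, Jq r A p i i := by
    unfold gam
    exact Finset.sum_congr rfl fun i _ => (Jq_apply r A p i i).symm
  have h3 : ∑ i : Fin M, (1 + Jq r A p i i) ≤ ∑ _i : Fin M, GQ r A p := Finset.sum_le_sum fun i _ => h1 i
  rw [Finset.sum_add_distrib, Finset.sum_const, Finset.sum_const, Finset.card_univ, Fintype.card_fin, nsmul_eq_mul,
    nsmul_eq_mul, mul_one] at h3
  have h4 : (1 : ℝ) ≤ M := by exact_mod_cast hM
  rw [h2]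
  linarith

end

end Pool.Agent.Helper47.FN
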