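import Pool.Agent.Helper47.FN.Lay
import Pool.Agent.Helper48.DGM.Lf
import Pool.Agent.Helper81.MT.Trn

/-! A system whose hull (of one degree) is not trivial: on an event, truncated to the depth of the cut, it has a form
without leak which cuts by a definite amount. -/

set_option autoImplicit false

namespace Pool.Agent.Helper47.FN

open Finset Filter Topology Matrix Pool.Agent.Helper69.RK Pool.Agent.Helper31.EC Pool.Agent.Helper31.EC.Sp
open Pool.Agent.Helper40.EL Pool.Agent.Helper89.LX Pool.Agent.Helper3.LF Pool.Agent.Helper84.MT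
open Pool.Agent.Helper95.LF (PdM)
open Pool.Agent.Helper14.MC (gx vx vol_eq vx_UB osp_n oQ adf_cap gexq gexq_bd)
open Pool.Agent.Helper42.NS (osp osp_dl)
open Pool.Agent.Helper48.DGM (der_dom pt_close)
open Pool.Agent.Helper48.NS (Tm)
open Pool.Agent.Helper52.SL (tnF tnL untF untL)

noncomputable section

variable {S T : Sp} {M D : ℕ} {E : ℕ → ℕ} {κ : Type}

/-- the top exponent of a form at the point -/
def Lx (Q : S.VV M) (x : ∀ k, FD (S.F k) (Mon M D)) (k : ℕ) (ω : (x k).l.T.Ω) : ℝ :=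
  Real.logb 2 (1 + gam (S.dl 1 k) ((x k).g ω) (Q.v k ((x k).l.p.π ω))) / (2 * (S.F k).n)

theorem gx_le_Lx (Q : S.VV M) (x : ∀ k, FD (S.F k) (Mon M D)) (k : ℕ) (ω : (x k).l.T.Ω) (hg : PdM ((x k).g ω)) :
    gx Q k ((x k).l.p.π ω) ((x k).g ω) ≤ M * Lx Q x k ω := by
  have hn := (S.F k).pos
  unfold gx Lx
  have h0 := gam_nonneg (S.dl 1 k) hg.nonneg (Q.v k ((x k).l.p.π ω))
  have h1 := GQ_le_gam (S.dl 1 k) _ hg (Q.v k ((x k).l.p.π ω))
  have h2 := one_le_GQ (S.dl 1 k) hg.1 hg.nonneg (Q.v k ((x k).l.p.π ω))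
  have h3 := Real.logb_le_logb_of_le (b := 2) (by norm_num) (by linarith) h1
  rw [Real.logb_pow] at h3
  rw [← mul_div_assoc]
  exact div_le_div_of_nonneg_right h3 (by positivity)

theorem Lx_le_gx (Q : S.VV M) (hM : 1 ≤ M) (x : ∀ k, FD (S.F k) (Mon M D)) (k : ℕ) (ω : (x k).l.T.Ω)
    (hg : PdM ((x k).g ω)) :
    Lx Q x k ω ≤ gx Q k ((x k).l.p.π ω) ((x k).g ω) + Real.logb 2 M / (2 * (S.F k).n) := by
  have hn := (S.F k).pos
  unfold gx Lx
  have h0 := gam_nonneg (S.dl 1 k) hg.nonneg (Q.v k ((x k).l.p.π ω))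
  have h1 := gam_le_GQ (S.dl 1 k) hg.1 hg.nonneg (Q.v k ((x k).l.p.π ω)) hM
  have h2 := one_le_GQ (S.dl 1 k) hg.1 hg.nonneg (Q.v k ((x k).l.p.π ω))
  have hM' : (0 : ℝ) < M := by exact_mod_cast hM
  have h3 := Real.logb_le_logb_of_le (b := 2) (by norm_num) (by linarith) h1
  rw [Real.logb_mul hM'.ne' (by linarith)] at h3
  rw [← add_div]
  exact div_le_div_of_nonneg_right (by linarith) (by positivity)

/-- the value at the point is bounded by the gauge -/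
theorem qf_le_phi {A : Matrix (Mon M D) (Mon M D) ℝ} (hA : PdM A) (dl : ℝ) (p : Fin M → ℝ) :
    qf A (vv p) ≤ phi dl A p := by
  have e2 : nodp D p dl (fun _ => 0) = p := by
    funext i
    unfold nodp nod
    simp
  unfold phi
  refine le_trans (le_of_eq ?_) (Finset.single_le_sum (f := fun j => vv (nodp D p dl j) ⬝ᵥ
    (A *ᵥ vv (nodp D p dl j))) (fun j _ => hA.nonneg _) (Finset.mem_univ (fun _ => 0)))
  show _ = vv (nodp D p dl (fun _ => 0)) ⬝ᵥ (A *ᵥ vv (nodp D p dl (fun _ => 0)))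
  rw [e2]
  rfl

/-- a form whose derivatives it dominates is bounded on the cells of the scale of its thickness -/
theorem phi_big {A : Matrix (Mon M D) (Mon M D) ℝ} (hA : PdM A) (B r H : ℝ) (hr : 0 ≤ r) (hB : 0 ≤ B)
    (hT : ∀ (i : Fin M) v, qf A (Tm i *ᵥ v) ≤ B ^ 2 * qf A v) (hK : (M : ℝ) * B * r ≤ 1)
    (dl : ℝ) (p : Fin M → ℝ) (hp : phi dl A p ≤ H) : phi r A p ≤ ((D : ℝ) + 1) ^ M * (10 * H) := by
  have h0 : ∀ j : Fin M → Fin (D + 1), qf A (vv (nodp D p r j)) ≤ 10 * H := by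
    intro j
    have h1 := pt_close hA B r H hr hB hT hK dl p hp (nodp D p r j) (fun i => by
      unfold nodp
      rw [add_sub_cancel_left, abs_mul, abs_of_nonneg hr]
      have h6 : |nod D (j i)| ≤ 1 := by
        unfold nod
        rw [abs_of_nonneg (by positivity)]
        rw [div_le_one (by positivity)]
        have := (j i).2
        have h7 : ((j i : ℕ) : ℝ) ≤ D := by exact_mod_cast Nat.lt_succ_iff.mp this
        linarith
      exact (mul_le_mul_of_nonneg_left h6 hr).trans (by rw [mul_one]))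
    have h2 := qf_le_phi hA dl p
    have hH : 0 ≤ H := (phi_nonneg dl hA.nonneg p).trans hp
    have h3 : (2 * ((M : ℝ) * B * r)) ^ 2 * H ≤ 4 * H := by
      have h4 : 0 ≤ (M : ℝ) * B * r := by positivity
      have h5 : (2 * ((M : ℝ) * B * r)) ^ 2 ≤ 4 := by nlinarith
      exact mul_le_mul_of_nonneg_right h5 hH
    have h4 := Pool.Agent.Helper48.NS.qf_dif (fun v => hA.nonneg v) hA.1 (vv (nodp D p r j)) (vv p)
      (0 : Mon M D → ℝ)
    have e2 : qf A (0 - vv p) = qf A (vv p) := by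
      unfold qf
      rw [zero_sub, mulVec_neg, neg_dotProduct, dotProduct_neg, neg_neg]
    rw [sub_zero, e2] at h4
    linarith
  unfold phi
  calc ∑ j : Fin M → Fin (D + 1), vv (nodp D p r j) ⬝ᵥ (A *ᵥ vv (nodp D p r j))
      ≤ ∑ _j : Fin M → Fin (D + 1), 10 * H := Finset.sum_le_sum fun j _ => h0 j
    _ = ((D : ℝ) + 1) ^ M * (10 * H) := by
        rw [Finset.sum_const, Finset.card_univ, Fintype.card_fun, Fintype.card_fin, Fintype.card_fin, nsmul_eq_mul]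
        push_cast
        ring

/-- an optimal form is bounded on the cells of the scale of its thickness -/
theorem big_cell {A : κ → Part S} {Q : S.VV M} {x : ∀ k, FD (S.F k) (Mon M D)} (hx : (gaq Q D).Optf A x) (τ : ℝ)
    (hτ : ∀ᶠ k in UF, ∀ ω, (x k).l.T.μ ω ≠ 0 →
      gam (S.dl 1 k) ((x k).g ω) (Q.v k ((x k).l.p.π ω)) ≤ 2 ^ (2 * τ * (S.F k).n)) (e : ℝ) (he : τ < e)
    (η : ℝ) (hη : 0 < η) : ∀ᶠ k in UF, (x k).l.T.pb (fun ω =>
      ¬ phi (S.dl e k) ((x k).g ω) (Q.v k ((x k).l.p.π ω)) ≤ 2 ^ (η * (S.F k).n)) ≤ η := by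
  set ε : ℝ := (e - τ) / 2 with hε
  have ε0 : 0 < ε := by rw [hε]; linarith
  have hη2 : 0 < η / 2 := by linarith
  have h1 := der_dom hx τ (fun δ hδ => by
    refine tendsto_of_tendsto_of_tendsto_of_le_of_le' tendsto_const_nhds tendsto_const_nhds
      (Eventually.of_forall fun k => (x k).l.T.pb_nonneg _) (g := fun _ => (0 : ℝ)) ?_
    filter_upwards [hτ] with k hk
    have h2 : (x k).l.T.pb (fun ω => ¬ gam (S.dl 1 k) ((x k).g ω) (Q.v k ((x k).l.p.π ω)) ≤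
        2 ^ (2 * (τ + δ) * (S.F k).n)) ≤ (x k).l.T.pb (fun _ => False) := by
      apply FSp.pb_mono
      intro ω hω h3
      refine h3 ((hk ω hω).trans ?_)
      apply Real.rpow_le_rpow_of_exponent_le (by norm_num)
      have := (S.F k).pos
      nlinarith
    refine h2.trans (le_of_eq ?_)
    unfold FSp.pb mass
    apply Finset.sum_eq_zero
    intro ω _
    exact res_neg _ _ _ not_false) ε ε0
  have hs : S.Sub (fun _ => ((D : ℝ) + 1) ^ M * 10) := S.Sub_const (by positivity)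
  have hsM : S.Sub (fun _ => (M : ℝ)) := S.Sub_const (by positivity)
  filter_upwards [hx.1 (η / 2) hη2, h1.eventually (gt_mem_nhds hη2), hs.eventually_le hη2, hsM.eventually_le ε0]
    with k a b c d
  have hn := (S.F k).pos
  have h2 : (x k).l.T.pb (fun ω => ¬ phi (S.dl e k) ((x k).g ω) (Q.v k ((x k).l.p.π ω)) ≤ 2 ^ (η * (S.F k).n)) ≤
      (x k).l.T.pb (fun ω => (¬ (gaq Q D).φ k ((x k).l.p.π ω) ((x k).g ω) ≤ 2 ^ (η / 2 * (S.F k).n)) ∨
        ¬ ∀ (i : Fin M) (v : Mon M D → ℝ),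
          qf ((x k).g ω) (Tm i *ᵥ v) ≤ (2 ^ ((τ + ε) * (S.F k).n)) ^ 2 * qf ((x k).g ω) v) := by
    apply FSp.pb_mono
    intro ω hω h3
    by_contra h4
    rw [not_or, not_not, not_not] at h4
    apply h3
    have hg : PdM ((x k).g ω) := pdM_of_one_le (a.2.1 ω hω).1.1 (a.2.1 ω hω).1.2.1
    have hdl : (2 : ℝ) ^ ((τ + ε) * (S.F k).n) * S.dl e k = 2 ^ (-(ε * (S.F k).n)) := by
      unfold Sp.dl
      rw [← Real.rpow_add (by norm_num)]
      congr 1
      rw [hε]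
      ring
    have h5 := phi_big hg (2 ^ ((τ + ε) * (S.F k).n)) (S.dl e k) (2 ^ (η / 2 * (S.F k).n)) (S.dl_pos e k).le
      (by positivity) h4.2 (by
        rw [mul_assoc, hdl, Real.rpow_neg (by norm_num), ← div_eq_mul_inv, div_le_one (by positivity)]
        linarith) (S.dl 1 k) (Q.v k ((x k).l.p.π ω)) h4.1
    refine h5.trans ?_
    have e1 : (2 : ℝ) ^ (η * (S.F k).n) = 2 ^ (η / 2 * (S.F k).n) * 2 ^ (η / 2 * (S.F k).n) := by
      rw [← Real.rpow_add (by norm_num)]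
      congr 1
      ring
    have e2 : (0 : ℝ) < 2 ^ (η / 2 * (S.F k).n) := by positivity
    rw [e1]
    nlinarith
  refine h2.trans ((pb_or _ _ _).trans ?_)
  linarith [a.2.2.1]

/-- truncated labels with forms, cut off at the cap `c` -/
def tnX (e : ℝ) (he : 0 < e) (c : ℕ → ℝ) (x : ∀ k, FD (S.F k) (Mon M D)) :
    ∀ k, FD ((S.chg S.tr e he).F k) (Mon M D) := fun k =>
  { l := tnF e he (x k).l
    g := fun ω => capd (c k) ((x k).g ω)
    g' := fun ω => capd (c k) ((x k).g ω)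
    meas := fun ω ω' a b c' d => by
      have h := ((x k).meas ω ω' a b c' d).1
      exact ⟨congrArg _ h, congrArg _ h⟩ }

/-- where the form is bounded on the larger cell the cap is not reached -/
theorem cap_ok (Q : S.VV M) (e : ℝ) (he : 0 < e) : ∀ᶠ k in UF, ∀ ω, (S.F k).μ ω ≠ 0 →
    ∀ A : Matrix (Mon M D) (Mon M D) ℝ, A.IsSymm → (∀ v, v ⬝ᵥ v ≤ qf A v) →
      phi (S.dl e k) A (Q.v k ω) ≤ 2 ^ (e * (S.F k).n) → Cpd ((gaq (Q.chg S.tr e he) D).cp k) A := by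
  filter_upwards [(gaq (Q.chg S.tr e he) D).cap] with k hk ω hω A h1 h2 h3
  refine ⟨h1, h2, fun v => ?_⟩
  refine (hk ω hω A (pdM_of_one_le h1 h2) v).trans ?_
  apply mul_le_mul_of_nonneg_right _ (dot_self_nonneg v)
  have e1 : (gaq (Q.chg S.tr e he) D).φ k ω A = phi (S.dl e k) A (Q.v k ω) := by
    show phi ((S.chg S.tr e he).dl 1 k) A ((Q.chg S.tr e he).v k ω) = _
    rw [chg_dl, mul_one]
    rfl
  rw [e1]
  unfold Gau.cp
  rw [add_mul, one_mul, Real.rpow_add (by norm_num)]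
  exact mul_le_mul_of_nonneg_left h3 (by positivity)

theorem tnX_fm {Q : S.VV M} {x : ∀ k, FD (S.F k) (Mon M D)} (e : ℝ) (he : 0 < e)
    (hpd : ∀ᶠ k in UF, ∀ ω, (x k).l.T.μ ω ≠ 0 → ((x k).g ω).IsSymm ∧ ∀ v, v ⬝ᵥ v ≤ qf ((x k).g ω) v)
    (hb : ∀ η : ℝ, 0 < η → ∀ᶠ k in UF, (x k).l.T.pb (fun ω =>
      ¬ phi (S.dl e k) ((x k).g ω) (Q.v k ((x k).l.p.π ω)) ≤ 2 ^ (η * (S.F k).n)) ≤ η) :
    (gaq (Q.chg S.tr e he) D).Fm (tnX e he (gaq (Q.chg S.tr e he) D).cp x) := by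
  intro η hη
  set η' : ℝ := min (η * e) (min η e) with hη'
  have η0 : 0 < η' := lt_min (mul_pos hη he) (lt_min hη he)
  have i1 : η' ≤ η * e := min_le_left _ _
  have i2 : η' ≤ η := (min_le_right _ _).trans (min_le_left _ _)
  have i3 : η' ≤ e := (min_le_right _ _).trans (min_le_right _ _)
  filter_upwards [hpd, hb η' η0, cap_ok (D := D) Q e he] with k a b c
  have hn := (S.F k).pos
  have key : (x k).l.T.pb (fun ω => ¬ phi ((S.chg S.tr e he).dl 1 k)
      (capd ((gaq (Q.chg S.tr e he) D).cp k) ((x k).g ω)) (Q.v k ((x k).l.p.π ω)) ≤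
        2 ^ (η * ((S.chg S.tr e he).F k).n)) ≤ η := by
    refine le_trans (FSp.pb_mono _ ?_) (b.trans i2)
    intro ω hω h1 h2
    apply h1
    have h3 : phi (S.dl e k) ((x k).g ω) (Q.v k ((x k).l.p.π ω)) ≤ 2 ^ (e * (S.F k).n) :=
      h2.trans (Real.rpow_le_rpow_of_exponent_le (by norm_num) (mul_le_mul_of_nonneg_right i3 hn.le))
    rw [capd_eq (c _ ((x k).l.p.supp ω hω) _ (a ω hω).1 (a ω hω).2 h3), chg_dl, mul_one]
    refine h2.trans (Real.rpow_le_rpow_of_exponent_le (by norm_num) ?_)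
    have e1 : ((S.chg S.tr e he).F k).n = e * (S.F k).n := rfl
    rw [e1, ← mul_assoc]
    exact mul_le_mul_of_nonneg_right i1 hn.le
  exact ⟨fun ω _ => ⟨capd_Cpd (Gau.one_le_cp _ _) _, capd_Cpd (Gau.one_le_cp _ _) _⟩, key, key⟩

/-- the cut of the truncated form is definite -/
theorem tnX_vx {Q : S.VV M} (hM : 1 ≤ M) {x : ∀ k, FD (S.F k) (Mon M D)} (e : ℝ) (he : 0 < e) (h1 : e ≤ 1) {σ : ℝ}
    (hσ : e / 3 ≤ σ)
    (hpd : ∀ᶠ k in UF, ∀ ω, (x k).l.T.μ ω ≠ 0 → ((x k).g ω).IsSymm ∧ ∀ v, v ⬝ᵥ v ≤ qf ((x k).g ω) v)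
    (hL : ∀ᶠ k in UF, ∀ ω, (x k).l.T.μ ω ≠ 0 → σ ≤ Lx Q x k ω)
    (hb : ∀ η : ℝ, 0 < η → ∀ᶠ k in UF, (x k).l.T.pb (fun ω =>
      ¬ phi (S.dl e k) ((x k).g ω) (Q.v k ((x k).l.p.π ω)) ≤ 2 ^ (η * (S.F k).n)) ≤ η) :
    ∀ᶠ k in UF, 1 / 4 ≤ vx (Q.chg S.tr e he) (tnX e he (gaq (Q.chg S.tr e he) D).cp x) k := by
  classical
  set η : ℝ := min (1 / 100) e with hη
  have η0 : 0 < η := lt_min (by norm_num) he
  have i1 : η ≤ 1 / 100 := min_le_left _ _
  have i2 : η ≤ e := min_le_right _ _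
  have hc0 : (0 : ℝ) < M := by exact_mod_cast hM
  have hq := cQ_one M D
  have hs : S.Sub (fun _ => cQ M D ^ M * M) := S.Sub_const (by positivity)
  filter_upwards [hpd, hb η η0, cap_ok (D := D) Q e he, hL, hs.eventually_le (show 0 < e / 50 by positivity)]
    with k a b c d f
  have hn := (S.F k).pos
  set G : (x k).l.T.Ω → Prop := fun ω => phi (S.dl e k) ((x k).g ω) (Q.v k ((x k).l.p.π ω)) ≤ 2 ^ (η * (S.F k).n)
    with hG
  set gg : (x k).l.T.Ω → ℝ := fun ω => Real.logb 2 (GQ ((S.chg S.tr e he).dl 1 k)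
    (capd ((gaq (Q.chg S.tr e he) D).cp k) ((x k).g ω)) (Q.v k ((x k).l.p.π ω))) / (2 * (e * (S.F k).n)) with hgg
  have h2 : ∀ ω, (x k).l.T.μ ω ≠ 0 → (if G ω then (8 : ℝ) / 25 else 0) ≤ gg ω := by
    intro ω hω
    by_cases hGω : G ω
    · rw [if_pos hGω, hgg]
      simp only
      have h3 : phi (S.dl e k) ((x k).g ω) (Q.v k ((x k).l.p.π ω)) ≤ 2 ^ (e * (S.F k).n) :=
        le_trans hGω (Real.rpow_le_rpow_of_exponent_le (by norm_num) (mul_le_mul_of_nonneg_right i2 hn.le))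
      have hs1 := (a ω hω).1
      have hs2 := (a ω hω).2
      have hg : PdM ((x k).g ω) := pdM_of_one_le hs1 hs2
      rw [capd_eq (c _ ((x k).l.p.supp ω hω) _ hs1 hs2 h3), chg_dl, mul_one, le_div_iff₀ (by positivity)]
      have h4 := GQ_comp ((x k).g ω) hg (S.dl e k) (S.dl 1 k) 1 (S.dl_pos e k) (S.dl_pos 1 k).le le_rfl
        (Q.v k ((x k).l.p.π ω)) (Q.v k ((x k).l.p.π ω)) (fun i => by
          rw [sub_self, abs_zero, zero_add, one_mul]
          exact S.dl_anti h1 k)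
      rw [one_pow, mul_one] at h4
      have h5 := gam_le_GQ (S.dl 1 k) hs1 hg.nonneg (Q.v k ((x k).l.p.π ω)) hM
      have h6 := gam_nonneg (S.dl 1 k) hg.nonneg (Q.v k ((x k).l.p.π ω))
      have h7 := one_le_GQ (S.dl e k) hs1 hg.nonneg (Q.v k ((x k).l.p.π ω))
      have h8 : 1 + gam (S.dl 1 k) ((x k).g ω) (Q.v k ((x k).l.p.π ω)) ≤
          cQ M D ^ M * M * GQ (S.dl e k) ((x k).g ω) (Q.v k ((x k).l.p.π ω)) := by
        refine h5.trans ?_
        have := mul_le_mul_of_nonneg_left h4 hc0.le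
        linarith
      have h9 := Real.logb_le_logb_of_le (b := 2) (by norm_num) (by linarith) h8
      rw [Real.logb_mul (by positivity) (by linarith)] at h9
      have h10 := d ω hω
      unfold Lx at h10
      rw [le_div_iff₀ (by positivity)] at h10
      have h11 : Real.logb 2 (cQ M D ^ M * M) ≤ e / 50 * (S.F k).n := by
        rw [Real.logb_le_iff_le_rpow (by norm_num) (by positivity)]
        linarith
      have h12 : e / 3 * (S.F k).n ≤ σ * (S.F k).n := mul_le_mul_of_nonneg_right hσ hn.le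
      have h13 : 0 < e * (S.F k).n := mul_pos he hn
      nlinarith
    · rw [if_neg hGω, hgg]
      have h3 := capd_Cpd (Gau.one_le_cp (gaq (Q.chg S.tr e he) D) k) ((x k).g ω)
      have h4 := one_le_GQ ((S.chg S.tr e he).dl 1 k) h3.1 h3.psd.2 (Q.v k ((x k).l.p.π ω))
      exact div_nonneg (Real.logb_nonneg (by norm_num) h4) (by positivity)
  have h3 : ∑ ω, (x k).l.T.μ ω * (if G ω then (8 : ℝ) / 25 else 0) ≤ ∑ ω, (x k).l.T.μ ω * gg ω := by
    refine Finset.sum_le_sum fun ω _ => ?_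
    by_cases hω : (x k).l.T.μ ω = 0
    · rw [hω, zero_mul, zero_mul]
    · exact mul_le_mul_of_nonneg_left (h2 ω hω) ((x k).l.T.nn ω)
  rw [e1_sum] at h3
  have h4 : (x k).l.T.pb G + (x k).l.T.pb (fun ω => ¬ G ω) = 1 := FSp.pb_add_compl _ _
  have h5 : (x k).l.T.pb (fun ω => ¬ G ω) ≤ η := b
  have h6 : 1 / 4 ≤ ∑ ω, (x k).l.T.μ ω * gg ω := by
    refine le_trans ?_ h3
    nlinarith
  exact h6

/-- partitions as conditions -/
def pfm (B : κ → ∀ k, Setoid (S.F k).Ω) : κ → Part S := fun i k => fc (B i k)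

/-- partitions as conditions of a truncated space -/
def pft (B : κ → ∀ k, Setoid (S.F k).Ω) (e : ℝ) (he : 0 < e) : κ → Part (S.chg S.tr e he) :=
  fun i k => fc (F := (S.F k).chg ⊤ e he) (B i k)

/-- the optimal form is bounded on the larger cells -/
theorem step_b {A : κ → Part S} {Q : S.VV M} {x : ∀ k, FD (S.F k) (Mon M D)} (hx : (gaq Q D).Optf A x) {σ ε e : ℝ}
    (hL : ∀ᶠ k in UF, ∀ ω, (x k).l.T.μ ω ≠ 0 → σ ≤ Lx Q x k ω ∧ Lx Q x k ω < σ + ε)
    (he : e = 1 ∨ σ + ε < e) (η : ℝ) (hη : 0 < η) : ∀ᶠ k in UF, (x k).l.T.pb (fun ω =>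
      ¬ phi (S.dl e k) ((x k).g ω) (Q.v k ((x k).l.p.π ω)) ≤ 2 ^ (η * (S.F k).n)) ≤ η := by
  rcases he with rfl | h3
  · filter_upwards [hx.1 η hη] with k hk
    exact hk.2.2.1
  · refine big_cell hx (σ + ε) ?_ e h3 η hη
    filter_upwards [hL, hx.1 1 one_pos] with k hk hp ω hω
    have hn := (S.F k).pos
    have h4 := (hk ω hω).2
    unfold Lx at h4
    have h0 := gam_nonneg (S.dl 1 k) (pdM_of_one_le (hp.2.1 ω hω).1.1 (hp.2.1 ω hω).1.2.1).nonneg
      (Q.v k ((x k).l.p.π ω))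
    rw [div_lt_iff₀ (by positivity), Real.logb_lt_iff_lt_rpow (by norm_num) (by linarith)] at h4
    have e2 : (σ + ε) * (2 * (S.F k).n) = 2 * (σ + ε) * (S.F k).n := by ring
    rw [e2] at h4
    linarith

/-- labels without leak are labels of the truncated space -/
theorem step_l (B : κ → ∀ k, Setoid (S.F k).Ω) {x : ∀ k, FD (S.F k) (Mon M D)} (hx : (lbS x).DMf (pfm B)) (e : ℝ)
    (he : 0 < e) (c : ℕ → ℝ) : (lbS (tnX e he c x)).DMf (pft B e he) := by
  intro i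
  refine Pool.Agent.Helper52.SL.nul_trn.mpr ?_
  have h1 : (fun k => (lbS (tnX e he c x) k).leak (pft B e he i k)) = fun k => (lbS x k).leak (pfm B i k) :=
    funext fun k => Pool.Agent.Helper52.SL.tnF_leak e he (x k).l (B i k)
  rw [h1]
  exact hx i

/-- the step for an optimal form whose top exponent is almost constant -/
theorem step_one [Finite κ] (Q : S.VV M) (B : κ → ∀ k, Setoid (S.F k).Ω) (hM : 1 ≤ M)
    {x : ∀ k, FD (S.F k) (Mon M D)} (hx : (gaq Q D).Optf (pfm B) x)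
    {σ ε : ℝ} (hε : 0 < ε) (hσ : ε ≤ σ)
    (hL : ∀ᶠ k in UF, ∀ ω, (x k).l.T.μ ω ≠ 0 → σ ≤ Lx Q x k ω ∧ Lx Q x k ω < σ + ε) :
    ∃ (e : ℝ) (he : 0 < e) (_ : e ≤ 1) (y : ∀ k, FD ((S.chg S.tr e he).F k) (Mon M D)),
      (lbS y).DMf (pft B e he) ∧ (gaq (Q.chg S.tr e he) D).Fm y ∧
        ∀ᶠ k in UF, 1 / 4 ≤ vx (Q.chg S.tr e he) y k := by
  obtain ⟨e, he, h1, h2, h3⟩ : ∃ e : ℝ, 0 < e ∧ e ≤ 1 ∧ e ≤ σ + 2 * ε ∧ (e = 1 ∨ σ + ε < e) := by
    rcases le_or_gt 1 (σ + 2 * ε) with h3 | h3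
    · exact ⟨1, one_pos, le_rfl, h3, Or.inl rfl⟩
    · exact ⟨σ + 2 * ε, by linarith, h3.le, le_rfl, Or.inr (by linarith)⟩
  have hpd : ∀ᶠ k in UF, ∀ ω, (x k).l.T.μ ω ≠ 0 → ((x k).g ω).IsSymm ∧ ∀ v, v ⬝ᵥ v ≤ qf ((x k).g ω) v := by
    filter_upwards [hx.1 1 one_pos] with k hk ω hω
    exact ⟨(hk.2.1 ω hω).1.1, (hk.2.1 ω hω).1.2.1⟩
  have hb := step_b hx hL h3
  have h4 := tnX_fm e he hpd hb
  have h5 := tnX_vx hM e he h1 (show e / 3 ≤ σ by linarith) hpd (hL.mono fun k hk ω hω => (hk ω hω).1) hb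
  exact ⟨e, he, h1, tnX e he (gaq (Q.chg S.tr e he) D).cp x, step_l B (Gau.Adf.dm _ hx.1) e he _, h4, h5⟩

/-- AN OPTIMAL FORM WHICH CUTS becomes, after restriction to an event and truncation to the depth of the cut, a form
without leak with a definite cut -/
theorem step [Finite κ] (Q : S.VV M) (B : κ → ∀ k, Setoid (S.F k).Ω) (hM : 1 ≤ M) {D : ℕ}
    {x : ∀ k, FD (S.F k) (Mon M D)} (hx : (gaq Q D).Optf (pfm B) x) (hv : vol Q D x < M) :
    ∃ (T : Sp) (p : Pj T S) (A : ∀ k, (T.F k).Ω → Prop) (_ : 0 < ul (T.pr A)) (e : ℝ) (he : 0 < e) (_ : e ≤ 1)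
      (y : ∀ k, FD (((Sp.im p A).chg (Sp.im p A).tr e he).F k) (Mon M D)),
      (lbS y).DMf (pft (S := Sp.im p A) B e he) ∧ (gaq ((Q.im p A).chg (Sp.im p A).tr e he) D).Fm y ∧
        ∀ᶠ k in UF, 1 / 4 ≤ vx ((Q.im p A).chg (Sp.im p A).tr e he) y k := by
  have hc0 : (0 : ℝ) < M := by exact_mod_cast hM
  have hub := vx_UB hx.1
  have h1 : 0 < ul (vx Q x) := by
    rw [vol_eq] at hv
    linarith
  set v := ul (vx Q x) with hvv
  have h2 : ∀ᶠ k in UF, v / 2 < vx Q x k := (ul_tendsto hub).eventually (lt_mem_nhds (by linarith))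
  have hpd : ∀ᶠ k in UF, ∀ ω, (x k).l.T.μ ω ≠ 0 → PdM ((x k).g ω) := by
    filter_upwards [hx.1 1 one_pos] with k hk ω hω
    exact pdM_of_one_le (hk.2.1 ω hω).1.1 (hk.2.1 ω hω).1.2.1
  obtain ⟨σ, ε, ε0, hσ, hB⟩ := exists_layer (S := (lbS x).sp) (Lx Q x)
    (((gaq Q D).C + 1 + 3) * M + 1) (v / (2 * M)) (by
      have := (gaq Q D).C0
      positivity) (by positivity) (by
      have h3 := gexq_bd (oQ (lb x) Q) (fun k (ω : (x k).l.T.Ω) => (x k).g ω) ((gaq Q D).C + 1)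
        (by linarith [(gaq Q D).C0]) (adf_cap hx.1)
      have hs : S.Sub (fun _ => (M : ℝ)) := S.Sub_const hc0.le
      filter_upwards [h3, hpd, hs.eventually_le one_pos] with k a b c ω hω
      have hn := (S.F k).pos
      have h4 := Lx_le_gx Q hM x k ω (b ω hω)
      have h5 := a ω hω
      have h6 : gexq (oQ (lb x) Q) (fun k (ω : (x k).l.T.Ω) => (x k).g ω) k ω =
          gx Q k ((x k).l.p.π ω) ((x k).g ω) := by
        unfold gexq gx
        rw [osp_dl, osp_n]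
        rfl
      have h7 : Real.logb 2 M / (2 * (S.F k).n) ≤ 1 := by
        rw [div_le_one (by positivity), Real.logb_le_iff_le_rpow (by norm_num) hc0]
        have h8 : (2 : ℝ) ^ (1 * (S.F k).n) ≤ 2 ^ (2 * (S.F k).n) :=
          Real.rpow_le_rpow_of_exponent_le (by norm_num) (by linarith)
        linarith
      rw [← h6] at h4
      linarith) (by
      filter_upwards [h2, hpd] with k a b
      have h4 : vx Q x k ≤ M * ∑ ω, (x k).l.T.μ ω * Lx Q x k ω := by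
        unfold vx
        rw [Finset.mul_sum]
        refine Finset.sum_le_sum fun ω _ => ?_
        by_cases hω : (x k).l.T.μ ω = 0
        · rw [hω, zero_mul, zero_mul, mul_zero]
        · have := mul_le_mul_of_nonneg_left (gx_le_Lx Q x k ω (b ω hω)) ((x k).l.T.nn ω)
          linarith
      have h5 : v / (2 * M) ≤ ∑ ω, (x k).l.T.μ ω * Lx Q x k ω := by
        rw [div_le_iff₀ (by positivity)]
        linarith
      exact h5)
  have hopt : (gaq (Q.im (lbS x).pj fun k ω => σ ≤ Lx Q x k ω ∧ Lx Q x k ω < σ + ε) D).Optf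
      (pfm (S := Sp.im (lbS x).pj fun k ω => σ ≤ Lx Q x k ω ∧ Lx Q x k ω < σ + ε) B)
      (reS x fun k ω => σ ≤ Lx Q x k ω ∧ Lx Q x k ω < σ + ε) := by
    have h3 := Gau.Optf.re hx _ hB
    rw [← gaq_im] at h3
    exact h3
  obtain ⟨e, he, h3, y, h4⟩ := step_one (Q.im (lbS x).pj _) B hM hopt ε0 hσ (by
    filter_upwards [pr_half' hB] with k hk ω hω
    have h5 : (x k).l.T.pb (fun ω => σ ≤ Lx Q x k ω ∧ Lx Q x k ω < σ + ε) ≠ 0 := by
      have h6 : ul ((lbS x).sp.pr fun k ω => σ ≤ Lx Q x k ω ∧ Lx Q x k ω < σ + ε) / 2 ≤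
        (x k).l.T.pb (fun ω => σ ≤ Lx Q x k ω ∧ Lx Q x k ω < σ + ε) := hk
      have := half_pos hB
      exact (this.trans_le h6).ne'
    exact ((x k).l.T.rest_supp _ ω hω).2 h5)
  exact ⟨(lbS x).sp, (lbS x).pj, _, hB, e, he, h3, y, h4⟩

end

end Pool.Agent.Helper47.FN
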